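import Pool.Agent.Q199.GF.Main

set_option autoImplicit false

namespace Pool.Agent.Results.MP_65983e_an.NotOmegaCategorical

open Pool.Agent.Q199.GF TopologicalSpace

/-- There is a separable infinite-dimensional real Banach space which is cofinally Fraisse (and
hence guarded Fraisse) but not `ω`-categorical. -/
theorem result : ∃ (X : Type) (_ : NormedAddCommGroup X) (_ : NormedSpace ℝ X),
    CompleteSpace X ∧ SeparableSpace X ∧ ¬ FiniteDimensional ℝ X ∧
      CofinallyFraisse X ∧ GuardedFraisse X ∧ ¬ OmegaCategorical X :=
  ⟨X, inferInstance, inferInstance, inferInstance, sep, not_fd, cofinal, cofinal.guarded, not_cat⟩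

end Pool.Agent.Results.MP_65983e_an.NotOmegaCategorical
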